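import Mathlib

/-!
# Word functions of finite rank: a trace obstruction

Let `P` be a function on words over a finite alphabet, normalised, consistent on both sides, and
multiplicative over gaps of length `k`.  If the functions `v ↦ P (u ++ v)` span a finite dimensional
space then `P` cannot vanish on all words having two equal neighbouring letters: the operators
`f ↦ f (a :: ·)` would be square zero, so of trace zero, while their sum has trace one.
-/

namespace Pool.Agent.N945.MRF

open Submodule

variable {α : Type*}

/-- the future function of the past word `u` -/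
def fut (P : List α → ℝ) (u : List α) : List α → ℝ := fun v => P (u ++ v)

/-- the operator `f ↦ f (a :: ·)` -/
def op (a : α) : (List α → ℝ) →ₗ[ℝ] (List α → ℝ) where
  toFun f := fun v => f (a :: v)
  map_add' _ _ := rfl
  map_smul' _ _ := rfl

@[simp] theorem op_apply (a : α) (f : List α → ℝ) (v : List α) : op a f v = f (a :: v) := rfl

/-- the space spanned by the future functions -/
def space (P : List α → ℝ) : Submodule ℝ (List α → ℝ) := span ℝ (Set.range (fut P))

theorem op_fut (P : List α → ℝ) (a : α) (u : List α) : op a (fut P u) = fut P (u ++ [a]) := by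
  funext v
  simp [fut]

theorem op_mem (P : List α → ℝ) (a : α) : ∀ f ∈ space P, op a f ∈ space P := by
  have : space P ≤ (space P).comap (op a) := by
    refine span_le.2 ?_
    rintro _ ⟨u, rfl⟩
    change op a (fut P u) ∈ space P
    rw [op_fut]
    exact subset_span ⟨_, rfl⟩
  exact this

/-- the operator `f ↦ f (a :: ·)` on the space of future functions -/
noncomputable def rop (P : List α → ℝ) (a : α) : space P →ₗ[ℝ] space P :=
  (op a).restrict (op_mem P a)

theorem trace_rop (P : List α → ℝ) [FiniteDimensional ℝ (space P)]
    (hcol : ∀ u v a, P (u ++ a :: a :: v) = 0) (a : α) :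
    LinearMap.trace ℝ _ (rop P a) = 0 := by
  have h0 : ∀ f ∈ space P, op a (op a f) = 0 := by
    have : space P ≤ LinearMap.ker ((op a : (List α → ℝ) →ₗ[ℝ] _) ∘ₗ op a) := by
      refine span_le.2 ?_
      rintro _ ⟨u, rfl⟩
      change op a (op a (fut P u)) = 0
      funext v
      simpa [fut] using hcol u v a
    exact this
  have h1 : rop P a ^ 2 = 0 := by
    ext f v
    have := congrFun (h0 f f.2) v
    simpa [pow_two, rop] using this
  exact (LinearMap.isNilpotent_trace_of_isNilpotent ⟨2, h1⟩).eq_zero

/-- If `t ^ (k + 1) = e` with `e` idempotent absorbing `t`, then `t` and `e` have equal traces. -/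
theorem pow_argument (V : Type*) [AddCommGroup V] [Module ℝ V] [FiniteDimensional ℝ V]
    (t e : Module.End ℝ V) (hee : e * e = e) (hte : t * e = e) (het : e * t = e) (k : ℕ)
    (htk : t ^ (k + 1) = e) (h0 : LinearMap.trace ℝ V t = 0) (h1 : LinearMap.trace ℝ V e = 1) :
    False := by
  have hpow : ∀ n : ℕ, (t - e) ^ (n + 1) = t ^ (n + 1) - e := by
    intro n
    induction n with
    | zero => simp
    | succ n ih =>
      have h3 : t ^ (n + 1) * e = e := by
        clear ih
        induction n with
        | zero => simpa using hte
        | succ n ih => rw [pow_succ, mul_assoc, hte, ih]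
      rw [pow_succ, ih, sub_mul, mul_sub, mul_sub, h3, het, hee, ← pow_succ]
      abel
  have hnil : IsNilpotent (t - e) := ⟨k + 1, by rw [hpow, htk, sub_self]⟩
  have h4 := (LinearMap.isNilpotent_trace_of_isNilpotent hnil).eq_zero
  rw [map_sub, h0, h1] at h4
  norm_num at h4

variable [Fintype α]

/-- the sum of the operators -/
noncomputable def top : (List α → ℝ) →ₗ[ℝ] (List α → ℝ) := ∑ a, op a

theorem top_apply (f : List α → ℝ) (v : List α) : (top : _ →ₗ[ℝ] _) f v = ∑ a, f (a :: v) := by
  simp [top, LinearMap.sum_apply, Finset.sum_apply]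

theorem no_finite_rank (P : List α → ℝ) (h1 : P [] = 1)
    (hl : ∀ w, ∑ a, P (a :: w) = P w) (hr : ∀ w, ∑ a, P (w ++ [a]) = P w)
    (k : ℕ) (hdep : ∀ u v, ((top : (List α → ℝ) →ₗ[ℝ] _) ^ (k + 1)) (fut P u) v = P u * P v)
    (hcol : ∀ u v a, P (u ++ a :: a :: v) = 0)
    (hfin : FiniteDimensional ℝ (space P)) : False := by
  set t : space P →ₗ[ℝ] space P := ∑ a, rop P a with ht
  have ht0 : LinearMap.trace ℝ _ t = 0 := by
    rw [ht, map_sum]
    exact Finset.sum_eq_zero fun a _ => trace_rop P hcol a
  have htc : ∀ f : space P, ((t f : space P) : List α → ℝ) = top (f : List α → ℝ) := by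
    intro f
    rw [ht]
    simp [top, LinearMap.sum_apply, rop]
  have htp : ∀ (n : ℕ) (f : space P), (((t ^ n) f : space P) : List α → ℝ)
      = (top ^ n) (f : List α → ℝ) := by
    intro n
    induction n with
    | zero => intro f; simp
    | succ n ih =>
      intro f
      rw [pow_succ, pow_succ, Module.End.mul_apply, Module.End.mul_apply, ih, htc]
  set x : space P := ⟨fut P [], subset_span ⟨_, rfl⟩⟩ with hx
  set l : space P →ₗ[ℝ] ℝ := (LinearMap.proj ([] : List α)).domRestrict (space P) with hl'
  set e : space P →ₗ[ℝ] space P := l.smulRight x with he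
  have hlx : l x = 1 := by
    simp [hl', hx, fut, h1]
  have hte : LinearMap.trace ℝ _ e = 1 := by
    rw [he, LinearMap.trace_smulRight, hlx]
  have hee : e * e = e := by
    ext1 f
    simp [he, hlx]
  have hxt : t x = x := by
    apply Subtype.ext
    rw [htc]
    funext v
    rw [top_apply]
    simpa [hx, fut] using hl v
  have hte1 : t * e = e := by
    ext1 f
    simp [he, hxt]
  have hlt : ∀ f : space P, l (t f) = l f := by
    intro f
    have h2 : ∀ g ∈ space P, (top g) ([] : List α) = g [] := by
      have : space P ≤ LinearMap.ker ((LinearMap.proj ([] : List α)) ∘ₗ top -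
          (LinearMap.proj ([] : List α) : (List α → ℝ) →ₗ[ℝ] ℝ)) := by
        refine span_le.2 ?_
        rintro _ ⟨u, rfl⟩
        change _ = _
        simp only [LinearMap.sub_apply, LinearMap.comp_apply, LinearMap.proj_apply, top_apply]
        simpa [fut, sub_eq_zero] using hr u
      intro g hg
      have := this hg
      simpa [LinearMap.mem_ker, sub_eq_zero] using this
    have := h2 f f.2
    simpa [hl', htc] using this
  have het1 : e * t = e := by
    ext1 f
    simp [he, hlt]
  have htk : t ^ (k + 1) = e := by
    have h2 : ∀ g ∈ space P, (top ^ (k + 1)) g = g [] • fut P [] := by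
      have : space P ≤ LinearMap.ker ((top ^ (k + 1) : (List α → ℝ) →ₗ[ℝ] _) -
          (LinearMap.proj ([] : List α) : (List α → ℝ) →ₗ[ℝ] ℝ).smulRight (fut P [])) := by
        refine span_le.2 ?_
        rintro _ ⟨u, rfl⟩
        change _ = _
        funext v
        simp only [LinearMap.sub_apply, Pi.sub_apply, hdep]
        simp [fut]
      intro g hg
      have := this hg
      simpa [LinearMap.mem_ker, sub_eq_zero] using this
    ext1 f
    apply Subtype.ext
    rw [htp, h2 f f.2]
    simp [he, hl', hx]
  exact pow_argument (space P) t e hee hte1 het1 k htk ht0 hte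

end Pool.Agent.N945.MRF
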