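import Pool.Agent.N945.MRF.Defs
import Pool.Agent.N945.MRF.Trace

/-!
# Words along a line
-/

namespace Pool.Agent.N945.MRF

open MeasureTheory ProbabilityTheory Set

variable {d q : ℕ}

theorem measurable_restr (A : Set (Site d)) :
    Measurable (fun (x : Conf d q) (v : A) => x v) :=
  measurable_pi_lambda _ fun v => measurable_pi_apply (v : Site d)

theorem sig_le (A : Set (Site d)) : sig (q := q) A ≤ (inferInstance : MeasurableSpace (Conf d q)) :=
  (measurable_restr A).comap_le

theorem sig_mono {A B : Set (Site d)} (h : A ⊆ B) : sig (q := q) A ≤ sig B := by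
  unfold sig
  have : (fun (x : Conf d q) (v : A) => x v) =
      (fun (y : B → Fin q) (v : A) => y ⟨v, h v.2⟩) ∘ (fun (x : Conf d q) (v : B) => x v) := rfl
  rw [this, ← MeasurableSpace.comap_comp]
  apply MeasurableSpace.comap_mono
  exact (measurable_pi_lambda _ fun v => measurable_pi_apply _).comap_le

theorem sat {A : Set (Site d)} {E : Set (Conf d q)} (hE : MeasurableSet[sig A] E) {x y : Conf d q}
    (hx : x ∈ E) (h : ∀ v ∈ A, x v = y v) : y ∈ E := by
  obtain ⟨F, _, rfl⟩ := hE
  have : (fun (v : A) => x v) = fun (v : A) => y v := funext fun v => h v v.2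
  simp only [mem_preimage] at hx ⊢
  rwa [← this]

theorem measurableSet_coord {A : Set (Site d)} {v : Site d} (hv : v ∈ A) (a : Fin q) :
    MeasurableSet[sig A] {x : Conf d q | x v = a} := by
  refine ⟨{y | y ⟨v, hv⟩ = a}, ?_, rfl⟩
  exact (show Measurable (fun y : A → Fin q => y ⟨v, hv⟩) from measurable_pi_apply _)
    (measurableSet_singleton a)

theorem sum_fiber (μ : Measure (Conf d q)) [IsProbabilityMeasure μ] {β : Type*} [Fintype β]
    [MeasurableSpace β] [MeasurableSingletonClass β] (g : Conf d q → β) (hg : Measurable g)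
    (B : Set (Conf d q)) (hB : MeasurableSet B) :
    ∑ b, μ.real ({x | g x = b} ∩ B) = μ.real B := by
  classical
  have h1 : B = ⋃ b ∈ (Finset.univ : Finset β), ({x | g x = b} ∩ B) := by
    ext x; simp
  have h2 := measureReal_biUnion_finset (μ := μ) (s := (Finset.univ : Finset β))
    (f := fun b => {x | g x = b} ∩ B) ?_ ?_
  · rw [← h2, ← h1]
  · intro a _ b _ hab
    refine Set.disjoint_left.2 ?_
    rintro x ⟨h1, _⟩ ⟨h2, _⟩
    exact hab (h1.symm.trans h2)
  · intro b _
    exact (hg (measurableSet_singleton b)).inter hB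

variable (i : Fin d)

/-- the word `w` is read at the sites `s e_i, (s+1) e_i, ...` -/
def ev (s : ℤ) : List (Fin q) → Set (Conf d q)
  | [] => univ
  | a :: w => {x | x (Pi.single i s) = a} ∩ ev (s + 1) w

@[simp] theorem ev_nil (s : ℤ) : ev (q := q) i s [] = univ := rfl

theorem ev_cons (s : ℤ) (a : Fin q) (w : List (Fin q)) :
    ev i s (a :: w) = {x | x (Pi.single i s) = a} ∩ ev i (s + 1) w := rfl

theorem ev_append (s : ℤ) (u v : List (Fin q)) :
    ev i s (u ++ v) = ev i s u ∩ ev i (s + u.length) v := by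
  induction u generalizing s with
  | nil => simp
  | cons a u ih =>
    rw [List.cons_append, ev_cons, ev_cons, ih, Set.inter_assoc]
    congr 3
    push_cast [List.length_cons]
    ring

theorem measurableSet_ev {A : Set (Site d)} (s : ℤ) (w : List (Fin q))
    (h : ∀ n : ℤ, s ≤ n → n < s + w.length → (Pi.single i n : Site d) ∈ A) :
    MeasurableSet[sig A] (ev i s w) := by
  induction w generalizing s with
  | nil => exact @MeasurableSet.univ _ (sig A)
  | cons a w ih =>
    rw [ev_cons]
    refine @MeasurableSet.inter _ (sig A) _ _ ?_ ?_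
    · refine measurableSet_coord (h s le_rfl ?_) a
      simp only [List.length_cons]; push_cast; linarith [Int.natCast_nonneg w.length]
    · refine ih (s + 1) fun n h1 h2 => h n (by linarith) ?_
      simp only [List.length_cons]; push_cast; linarith

theorem measurableSet_ev' (s : ℤ) (w : List (Fin q)) : MeasurableSet (ev i s w : Set (Conf d q)) :=
  sig_le (univ : Set (Site d)) _ (measurableSet_ev i s w fun _ _ _ => mem_univ _)

theorem shift_ev (t s : ℤ) (w : List (Fin q)) :
    (fun (x : Conf d q) (v : Site d) => x (v + Pi.single i t)) ⁻¹' ev i s w = ev i (s + t) w := by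
  induction w generalizing s with
  | nil => simp
  | cons a w ih =>
    rw [ev_cons, ev_cons, Set.preimage_inter, ih]
    have h1 : s + 1 + t = s + t + 1 := by ring
    rw [h1]
    congr 1
    ext x
    simp only [mem_preimage, mem_ofPred_eq]
    rw [← Pi.single_add]

variable (μ : Measure (Conf d q)) [IsProbabilityMeasure μ]

theorem measurable_shift (a : Site d) :
    Measurable (fun (x : Conf d q) (v : Site d) => x (v + a)) :=
  measurable_pi_lambda _ fun v => measurable_pi_apply (v + a)

theorem ev_inv (hμ : ShiftInvariant μ) (s t : ℤ) (w : List (Fin q)) :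
    μ.real (ev i (s + t) w) = μ.real (ev i s w) := by
  rw [← shift_ev i t s w, measureReal_def, measureReal_def]
  congr 1
  conv_rhs => rw [← hμ (Pi.single i t)]
  rw [Measure.map_apply (measurable_shift _) (measurableSet_ev' i s w)]

/-- probability of the word `w` -/
noncomputable def pw (w : List (Fin q)) : ℝ := μ.real (ev i 0 w)

theorem pw_eq (hμ : ShiftInvariant μ) (s : ℤ) (w : List (Fin q)) : μ.real (ev i s w) = pw i μ w := by
  have := ev_inv i μ hμ 0 s w
  rwa [zero_add] at this

theorem measurable_coord (v : Site d) : Measurable (fun x : Conf d q => x v) :=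
  measurable_pi_apply v

theorem sum_ev (B : Set (Conf d q)) (hB : MeasurableSet B) (s : ℤ) (v : List (Fin q)) :
    ∑ a, μ.real (B ∩ ev i s (a :: v)) = μ.real (B ∩ ev i (s + 1) v) := by
  rw [← sum_fiber μ (fun x => x (Pi.single i s)) (measurable_coord _) (B ∩ ev i (s + 1) v)
    (hB.inter (measurableSet_ev' i _ v))]
  refine Finset.sum_congr rfl fun a _ => ?_
  rw [ev_cons]
  congr 1
  ext x; simp only [mem_inter_iff, mem_ofPred_eq]; tauto

theorem pw_left (hμ : ShiftInvariant μ) (w : List (Fin q)) : ∑ a, pw i μ (a :: w) = pw i μ w := by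
  have := sum_ev i μ univ MeasurableSet.univ 0 w
  simp only [univ_inter] at this
  rw [pw_eq i μ hμ] at this
  exact this

theorem pw_right (w : List (Fin q)) : ∑ a, pw i μ (w ++ [a]) = pw i μ w := by
  have := sum_ev i μ (ev i 0 w) (measurableSet_ev' i 0 w) (0 + w.length) []
  simp only [ev_nil, inter_univ] at this
  unfold pw
  rw [← this]
  refine Finset.sum_congr rfl fun a _ => ?_
  rw [ev_append]

theorem pw_nil : pw i μ [] = 1 := by
  simp [pw]

theorem top_pow (u : List (Fin q)) (n : ℕ) (v : List (Fin q)) :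
    ((top : (List (Fin q) → ℝ) →ₗ[ℝ] _) ^ n) (fut (pw i μ) u) v =
      μ.real (ev i 0 u ∩ ev i (u.length + n) v) := by
  induction n generalizing v with
  | zero =>
    simp only [pow_zero, Module.End.one_apply, Nat.cast_zero, add_zero]
    unfold fut pw
    rw [ev_append, zero_add]
  | succ n ih =>
    rw [pow_succ', Module.End.mul_apply, top_apply]
    simp_rw [ih]
    rw [sum_ev i μ _ (measurableSet_ev' i 0 u)]
    have : (u.length : ℤ) + n + 1 = u.length + ((n + 1 : ℕ) : ℤ) := by push_cast; ring
    rw [this]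

theorem gdist_single (m n : ℤ) : gdist (Pi.single i m : Site d) (Pi.single i n) = (m - n).natAbs := by
  unfold gdist
  rw [Finset.sum_eq_single i]
  · simp
  · intro j _ hj; simp [Pi.single_eq_of_ne hj]
  · simp

theorem pw_dep (k : ℕ) (hk : ∀ A B : Set (Site d), (∀ u ∈ A, ∀ v ∈ B, k ≤ gdist u v) →
      Indep (sig A) (sig B) μ) (hμ : ShiftInvariant μ) (u v : List (Fin q)) :
    ((top : (List (Fin q) → ℝ) →ₗ[ℝ] _) ^ (k + 1)) (fut (pw i μ) u) v = pw i μ u * pw i μ v := by
  rw [top_pow]
  set A : Set (Site d) := {s | ∃ n : ℤ, n < u.length ∧ s = Pi.single i n}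
  set B : Set (Site d) := {s | ∃ n : ℤ, (u.length : ℤ) + (k + 1 : ℕ) ≤ n ∧ s = Pi.single i n}
  have hAB : Indep (sig A) (sig B) μ := by
    refine hk A B ?_
    rintro _ ⟨m, hm, rfl⟩ _ ⟨n, hn, rfl⟩
    rw [gdist_single]
    push_cast at hn
    omega
  have h1 := (Indep_iff _ _ μ).1 hAB (ev i 0 u) (ev i (u.length + (k + 1 : ℕ)) v)
    (measurableSet_ev i _ _ fun n _ h => ⟨n, by simpa using h, rfl⟩)
    (measurableSet_ev i _ _ fun n h _ => ⟨n, h, rfl⟩)
  rw [measureReal_def, h1, ENNReal.toReal_mul, ← measureReal_def, ← measureReal_def,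
    pw_eq i μ hμ, pw_eq i μ hμ]

theorem pw_col (hμ : ShiftInvariant μ) (h0 : μ {x | x 0 = x (Pi.single i 1)} = 0)
    (u v : List (Fin q)) (a : Fin q) : pw i μ (u ++ a :: a :: v) = 0 := by
  unfold pw
  rw [ev_append, ev_cons, ev_cons, zero_add]
  have h1 : μ {x : Conf d q | x (Pi.single i (u.length : ℤ)) =
      x (Pi.single i ((u.length : ℤ) + 1))} = 0 := by
    have h2 : MeasurableSet {x : Conf d q | x 0 = x (Pi.single i 1)} :=
      measurableSet_eq_fun (measurable_coord _) (measurable_coord _)
    rw [← hμ (Pi.single i (u.length : ℤ)), Measure.map_apply (measurable_shift _) h2] at h0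
    rw [← h0]
    congr 1
    ext x
    simp only [mem_preimage, mem_ofPred_eq, zero_add]
    rw [← Pi.single_add, add_comm]
  rw [measureReal_def, measure_mono_null ?_ h1, ENNReal.toReal_zero]
  rintro x ⟨_, hx1, hx2, _⟩
  simp only [mem_ofPred_eq] at hx1 hx2 ⊢
  rw [hx1, hx2]

end Pool.Agent.N945.MRF
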