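import Mathlib

/-!
# Finitely dependent Markov random fields: definitions
-/

namespace Pool.Agent.N945.MRF

open MeasureTheory ProbabilityTheory

/-- points of `ℤ^d` -/
abbrev Site (d : ℕ) : Type := Fin d → ℤ

/-- configurations on `ℤ^d` with `q` values -/
abbrev Conf (d q : ℕ) : Type := Site d → Fin q

/-- the graph distance of `ℤ^d` with nearest neighbour edges (the `ℓ¹` distance) -/
def gdist {d : ℕ} (u v : Site d) : ℕ := ∑ j, (u j - v j).natAbs

/-- the points outside `A` adjacent to a point of `A` -/
def boundary {d : ℕ} (A : Set (Site d)) : Set (Site d) := {v | v ∉ A ∧ ∃ u ∈ A, gdist u v = 1}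

/-- the sigma-algebra generated by the values at the sites of `A` -/
@[reducible] def sig {d q : ℕ} (A : Set (Site d)) : MeasurableSpace (Conf d q) :=
  MeasurableSpace.comap (fun (x : Conf d q) (v : A) => x v) inferInstance

/-- the law is invariant under all translations -/
def ShiftInvariant {d q : ℕ} (μ : Measure (Conf d q)) : Prop :=
  ∀ a : Site d, μ.map (fun x v => x (v + a)) = μ

/-- families indexed by sets at graph distance at least `k` are independent, for some `k` -/
def FinitelyDependent {d q : ℕ} (μ : Measure (Conf d q)) : Prop :=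
  ∃ k : ℕ, ∀ A B : Set (Site d), (∀ u ∈ A, ∀ v ∈ B, k ≤ gdist u v) → Indep (sig A) (sig B) μ

/-- for finite `A`, the conditional law of the values on `A` given the values outside `A` depends
only on the values on the boundary of `A` -/
def MarkovField {d q : ℕ} (μ : Measure (Conf d q)) : Prop :=
  ∀ A : Finset (Site d), ∀ E : Set (Conf d q), MeasurableSet[sig (A : Set (Site d))] E →
    μ[E.indicator (fun _ => (1 : ℝ)) | sig (A : Set (Site d))ᶜ] =ᵐ[μ]
      μ[E.indicator (fun _ => (1 : ℝ)) | sig (boundary (A : Set (Site d)))]

end Pool.Agent.N945.MRF
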