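import Pool.Agent.N945.MRF.Basic

/-!
# Lines of a finitely dependent Markov random field have finite rank
-/

namespace Pool.Agent.N945.MRF

open MeasureTheory ProbabilityTheory Set

variable {d q : ℕ} (i : Fin d)

/-- the sites `v` with `l ≤ v i ≤ h` and `|v j| ≤ r` for `j ≠ i` -/
noncomputable def box (r l h : ℤ) : Finset (Site d) :=
  Finset.Icc (Function.update (fun _ => -r) i l) (Function.update (fun _ => r) i h)

theorem mem_box {r l h : ℤ} {v : Site d} :
    v ∈ box i r l h ↔ (l ≤ v i ∧ v i ≤ h) ∧ ∀ j, j ≠ i → -r ≤ v j ∧ v j ≤ r := by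
  unfold box
  rw [Finset.mem_Icc, Pi.le_def, Pi.le_def]
  constructor
  · rintro ⟨h1, h2⟩
    refine ⟨⟨by simpa using h1 i, by simpa using h2 i⟩, fun j hj => ⟨?_, ?_⟩⟩
    · simpa [Function.update_of_ne hj] using h1 j
    · simpa [Function.update_of_ne hj] using h2 j
  · rintro ⟨⟨h1, h2⟩, h3⟩
    constructor
    · intro j
      by_cases hj : j = i
      · subst hj; simpa using h1
      · simpa [Function.update_of_ne hj] using (h3 j hj).1
    · intro j
      by_cases hj : j = i
      · subst hj; simpa using h2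
      · simpa [Function.update_of_ne hj] using (h3 j hj).2

theorem abs_le_gdist (u v : Site d) (j : Fin d) : (u j - v j).natAbs ≤ gdist u v := by
  unfold gdist
  exact Finset.single_le_sum (f := fun j => (u j - v j).natAbs) (fun _ _ => Nat.zero_le _)
    (Finset.mem_univ j)

variable (μ : Measure (Conf d q)) [IsProbabilityMeasure μ]

theorem cond_const (hM : MarkovField μ) (A : Finset (Site d)) (V : Set (Conf d q))
    (hV : MeasurableSet[sig (A : Set (Site d))] V) (z : Conf d q) (W : Set (Conf d q))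
    (hW : MeasurableSet[sig (A : Set (Site d))ᶜ] W)
    (hz : ∀ x ∈ W, ∀ v ∈ boundary (A : Set (Site d)), x v = z v) :
    μ.real (W ∩ V) =
      (μ[V.indicator (fun _ => (1 : ℝ)) | sig (boundary (A : Set (Site d)))]) z * μ.real W := by
  have hVm : MeasurableSet V := sig_le _ _ hV
  have hWm : MeasurableSet W := sig_le _ _ hW
  have hint : Integrable (V.indicator (fun _ => (1 : ℝ))) μ :=
    (integrable_const (1 : ℝ)).indicator hVm
  set g := μ[V.indicator (fun _ => (1 : ℝ)) | sig (boundary (A : Set (Site d)))] with hg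
  have h1 := setIntegral_condExp (sig_le (A : Set (Site d))ᶜ) hint hW
  have h2 : ∫ x in W, V.indicator (fun _ => (1 : ℝ)) x ∂μ = μ.real (W ∩ V) := by
    rw [integral_indicator_const _ hVm, measureReal_restrict_apply hVm, inter_comm]
    simp
  have h3 : ∫ x in W, (μ[V.indicator (fun _ => (1 : ℝ)) | sig (A : Set (Site d))ᶜ]) x ∂μ
      = ∫ x in W, g x ∂μ := integral_congr_ae (ae_restrict_of_ae (hM A V hV))
  have h4 : ∫ x in W, g x ∂μ = ∫ _ in W, g z ∂μ := by
    refine setIntegral_congr_fun hWm ?_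
    intro x hx
    have h5 : MeasurableSet[sig (boundary (A : Set (Site d)))] (g ⁻¹' {g z}) :=
      stronglyMeasurable_condExp.measurable (measurableSet_singleton _)
    exact sat h5 (show z ∈ g ⁻¹' {g z} from rfl) fun v hv => (hz x hx v hv).symm
  have h6 : ∫ _ in W, g z ∂μ = g z * μ.real W := by
    rw [setIntegral_const, smul_eq_mul, mul_comm]
  rw [← h2, ← h1, h3, h4, h6]

/-- the index type of the two end sections of the tube -/
abbrev Sec (k : ℕ) : Type := {v // v ∈ box i (k : ℤ) (-1) (-1)}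

theorem factor (hM : MarkovField μ) (hμ : ShiftInvariant μ) (k : ℕ)
    (hk : ∀ A B : Set (Site d), (∀ u ∈ A, ∀ v ∈ B, k ≤ gdist u v) → Indep (sig A) (sig B) μ)
    (n : ℕ) : ∃ a g : List (Fin q) → ((Sec i k → Fin q) × (Sec i k → Fin q)) → ℝ,
      ∀ u v : List (Fin q), v.length ≤ n → pw i μ (u ++ v) = ∑ y, a u y * g v y := by
  classical
  set A : Finset (Site d) := box i k 0 (n - 1) with hA
  set D : Finset (Site d) := (box i (k + 1) (-1) n).filter
    (fun v => v ∉ A ∧ v ∉ box i k (-1) (-1) ∧ v ∉ box i k n n) with hD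
  have hAc1 : ∀ v : Sec i k, (v : Site d) ∈ ((A : Set (Site d))ᶜ) := by
    rintro ⟨v, hv⟩ h
    rw [mem_box] at hv
    have h' : v ∈ box i (k : ℤ) 0 (n - 1) := h
    rw [mem_box] at h'
    omega
  have hAc2 : ∀ v : Sec i k, (v : Site d) + Pi.single i ((n : ℤ) + 1) ∈ ((A : Set (Site d))ᶜ) := by
    rintro ⟨v, hv⟩ h
    rw [mem_box] at hv
    have h' : v + Pi.single i ((n : ℤ) + 1) ∈ box i (k : ℤ) 0 (n - 1) := h
    rw [mem_box] at h'
    simp only [Pi.add_apply, Pi.single_eq_same] at h'
    omega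
  have hAc3 : ∀ v : D, (v : Site d) ∈ ((A : Set (Site d))ᶜ) := by
    rintro ⟨v, hv⟩ h
    rw [hD, Finset.mem_filter] at hv
    exact hv.2.1 h
  have hDfar : ∀ v ∈ (D : Set (Site d)), ∀ m : ℤ, k ≤ gdist v (Pi.single i m) := by
    intro v hv m
    have hv' : v ∈ D := hv
    rw [hD, Finset.mem_filter, mem_box, hA, mem_box, mem_box, mem_box] at hv'
    obtain ⟨⟨h1, h2⟩, h3, h4, h5⟩ := hv'
    by_cases hall : ∀ j, j ≠ i → -(k : ℤ) ≤ v j ∧ v j ≤ k
    · exfalso
      have h3' : ¬ (0 ≤ v i ∧ v i ≤ (n : ℤ) - 1) := fun h => h3 ⟨h, hall⟩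
      have h4' : ¬ (-1 ≤ v i ∧ v i ≤ -1) := fun h => h4 ⟨h, hall⟩
      have h5' : ¬ ((n : ℤ) ≤ v i ∧ v i ≤ n) := fun h => h5 ⟨h, hall⟩
      omega
    · push Not at hall
      obtain ⟨j, hj, hj2⟩ := hall
      refine le_trans ?_ (abs_le_gdist v (Pi.single i m) j)
      rw [Pi.single_eq_of_ne hj, sub_zero]
      by_cases h6 : -(k : ℤ) ≤ v j
      · have := hj2 h6; omega
      · omega
  have hbd : ∀ v ∈ boundary (A : Set (Site d)), v ∈ box i (k : ℤ) (-1) (-1) ∨
      v ∈ box i (k : ℤ) n n ∨ v ∈ D := by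
    rintro v ⟨hvA, u, huA, huv⟩
    by_cases h1 : v ∈ box i (k : ℤ) (-1) (-1)
    · exact Or.inl h1
    by_cases h2 : v ∈ box i (k : ℤ) n n
    · exact Or.inr (Or.inl h2)
    refine Or.inr (Or.inr ?_)
    rw [hD, Finset.mem_filter]
    refine ⟨?_, hvA, h1, h2⟩
    have hu : u ∈ box i (k : ℤ) 0 (n - 1) := huA
    rw [mem_box] at hu ⊢
    have h3 : ∀ j, (u j - v j).natAbs ≤ 1 := fun j => huv ▸ abs_le_gdist u v j
    refine ⟨?_, fun j hj => ?_⟩
    · have := h3 i; omega
    · have := h3 j; have := hu.2 j hj; omega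
  -- the reading maps
  set gY : Conf d q → (Sec i k → Fin q) × (Sec i k → Fin q) :=
    fun x => (fun c => x c, fun c => x ((c : Site d) + Pi.single i ((n : ℤ) + 1))) with hgY
  have hgYm : Measurable gY :=
    (measurable_pi_lambda _ fun c => measurable_pi_apply _).prodMk
      (measurable_pi_lambda _ fun c => measurable_pi_apply _)
  set gD : Conf d q → (D → Fin q) := fun x v => x v with hgD
  have hgDm : Measurable gD := measurable_pi_lambda _ fun c => measurable_pi_apply _
  have hYs : ∀ y, MeasurableSet[sig (A : Set (Site d))ᶜ] {x | gY x = y} := by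
    intro y
    have : {x | gY x = y} = (⋂ c : Sec i k, {x : Conf d q | x (c : Site d) = y.1 c}) ∩
        (⋂ c : Sec i k, {x : Conf d q | x ((c : Site d) + Pi.single i ((n : ℤ) + 1)) = y.2 c}) := by
      ext x
      simp only [hgY, mem_ofPred_eq, mem_inter_iff, mem_iInter, Prod.ext_iff, funext_iff]
    rw [this]
    refine @MeasurableSet.inter _ (sig (A : Set (Site d))ᶜ) _ _ ?_ ?_
    · exact @MeasurableSet.iInter _ _ (sig (A : Set (Site d))ᶜ) _ _
        fun c => measurableSet_coord (hAc1 c) _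
    · exact @MeasurableSet.iInter _ _ (sig (A : Set (Site d))ᶜ) _ _
        fun c => measurableSet_coord (hAc2 c) _
  have hDs : ∀ (f : D → Fin q) (S : Set (Site d)), (∀ v : D, (v : Site d) ∈ S) →
      MeasurableSet[sig S] {x | gD x = f} := by
    intro f S hS
    have : {x | gD x = f} = (⋂ c : D, {x : Conf d q | x (c : Site d) = f c}) := by
      ext x
      simp only [hgD, mem_ofPred_eq, mem_iInter, funext_iff]
    rw [this]
    exact @MeasurableSet.iInter _ _ (sig S) _ _ fun c => measurableSet_coord (hS c) _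
  obtain ⟨f, hf⟩ : ∃ f : D → Fin q, μ.real {x | gD x = f} ≠ 0 := by
    by_contra hcon
    push Not at hcon
    have h1 := sum_fiber μ gD hgDm univ MeasurableSet.univ
    simp only [inter_univ, hcon, Finset.sum_const_zero] at h1
    simp at h1
  set F : Set (Conf d q) := {x | gD x = f} with hF
  refine ⟨fun u y => μ.real ({x | gY x = y} ∩ (F ∩ ev i (-(u.length : ℤ)) u)) / μ.real F,
    fun v y => if h : ({x | gY x = y} ∩ F).Nonempty then
      (μ[(ev i 0 v).indicator (fun _ => (1 : ℝ)) | sig (boundary (A : Set (Site d)))]) h.some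
      else 0, ?_⟩
  intro u v hvn
  set U := ev (q := q) i (-(u.length : ℤ)) u with hU
  set V := ev (q := q) i 0 v with hV
  have hVA : MeasurableSet[sig (A : Set (Site d))] V := by
    refine measurableSet_ev i 0 v fun m h1 h2 => ?_
    change Pi.single i m ∈ box i (k : ℤ) 0 (n - 1)
    rw [mem_box]
    simp only [Pi.single_eq_same]
    refine ⟨⟨h1, by omega⟩, fun j hj => ?_⟩
    rw [Pi.single_eq_of_ne hj]
    omega
  have hUA : MeasurableSet[sig (A : Set (Site d))ᶜ] U := by
    refine measurableSet_ev i _ u fun m h1 h2 => ?_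
    intro h
    have h' : Pi.single i m ∈ box i (k : ℤ) 0 (n - 1) := h
    rw [mem_box] at h'
    simp only [Pi.single_eq_same] at h'
    omega
  have e1 : pw i μ (u ++ v) = μ.real (U ∩ V) := by
    rw [← pw_eq i μ hμ (-(u.length : ℤ)), ev_append]
    rw [neg_add_cancel]
  have e2 : μ.real (F ∩ (U ∩ V)) = μ.real F * μ.real (U ∩ V) := by
    have hI : Indep (sig (D : Set (Site d))) (sig {s | ∃ m : ℤ, s = Pi.single i m}) μ := by
      refine hk _ _ ?_
      rintro w hw _ ⟨m, rfl⟩
      exact hDfar w hw m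
    have h1 := (Indep_iff _ _ μ).1 hI F (U ∩ V) (hDs f _ fun v => v.2)
      (@MeasurableSet.inter _ (sig {s : Site d | ∃ m : ℤ, s = Pi.single i m}) _ _
        (measurableSet_ev i _ _ fun n _ _ => ⟨n, rfl⟩) (measurableSet_ev i _ _ fun n _ _ => ⟨n, rfl⟩))
    rw [measureReal_def, h1, ENNReal.toReal_mul, ← measureReal_def, ← measureReal_def]
  have hUVm : MeasurableSet (U ∩ V) := (measurableSet_ev' i _ u).inter (measurableSet_ev' i _ v)
  have hFm : MeasurableSet F := hgDm (measurableSet_singleton f)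
  have e3 := sum_fiber μ gY hgYm (F ∩ (U ∩ V)) (hFm.inter hUVm)
  rw [e1]
  have e4 : μ.real (U ∩ V) = (∑ y, μ.real ({x | gY x = y} ∩ (F ∩ (U ∩ V)))) / μ.real F := by
    rw [e3, e2]; field_simp
  rw [e4, Finset.sum_div]
  refine Finset.sum_congr rfl fun y _ => ?_
  have e5 : {x | gY x = y} ∩ (F ∩ (U ∩ V)) = ({x | gY x = y} ∩ (F ∩ U)) ∩ V := by
    simp only [inter_assoc]
  rw [e5]
  by_cases h : ({x | gY x = y} ∩ F).Nonempty
  · simp only [dif_pos h]
    rw [cond_const μ hM A V hVA h.some]
    · ring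
    · exact @MeasurableSet.inter _ (sig (A : Set (Site d))ᶜ) _ _ (hYs y)
        (@MeasurableSet.inter _ (sig (A : Set (Site d))ᶜ) _ _ (hDs f _ hAc3) hUA)
    · rintro x ⟨hx1, hx2, _⟩ w hw
      obtain ⟨hz1, hz2⟩ := h.some_mem
      have hx1' : gY x = y := hx1
      have hz1' : gY h.some = y := hz1
      have hx2' : gD x = f := hx2
      have hz2' : gD h.some = f := hz2
      have hY := hx1'.trans hz1'.symm
      have hDD := hx2'.trans hz2'.symm
      rcases hbd w hw with hw1 | hw1 | hw1
      · exact congrFun (congrArg Prod.fst hY) ⟨w, hw1⟩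
      · have hw2 : w - Pi.single i ((n : ℤ) + 1) ∈ box i (k : ℤ) (-1) (-1) := by
          rw [mem_box] at hw1 ⊢
          simp only [Pi.sub_apply, Pi.single_eq_same]
          refine ⟨by omega, fun j hj => ?_⟩
          rw [Pi.single_eq_of_ne hj, sub_zero]
          exact hw1.2 j hj
        have := congrFun (congrArg Prod.snd hY) ⟨_, hw2⟩
        simpa [hgY] using this
      · exact congrFun hDD ⟨w, hw1⟩
  · simp only [dif_neg h]
    have : ({x | gY x = y} ∩ (F ∩ U)) ∩ V = ∅ := by
      rw [Set.eq_empty_iff_forall_notMem]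
      rintro x ⟨⟨hx1, hx2, _⟩, _⟩
      exact h ⟨x, hx1, hx2⟩
    rw [this]
    simp

theorem finite_rank (hM : MarkovField μ) (hμ : ShiftInvariant μ) (k : ℕ)
    (hk : ∀ A B : Set (Site d), (∀ u ∈ A, ∀ v ∈ B, k ≤ gdist u v) → Indep (sig A) (sig B) μ) :
    FiniteDimensional ℝ (space (pw i μ)) := by
  classical
  set R : ℕ := Fintype.card ((Sec i k → Fin q) × (Sec i k → Fin q)) with hR
  have key : ∀ u : Fin (R + 1) → List (Fin q), ¬ LinearIndependent ℝ (fun j => fut (pw i μ) (u j)) := by
    intro u hLI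
    let K : ℕ → Submodule ℝ (Fin (R + 1) → ℝ) := fun n =>
      { carrier := {c | ∀ v : List (Fin q), v.length ≤ n → ∑ j, c j * pw i μ (u j ++ v) = 0}
        add_mem' := by
          intro a b ha hb v hv
          simp only [Pi.add_apply, add_mul, Finset.sum_add_distrib, ha v hv, hb v hv, add_zero]
        zero_mem' := by intro v _; simp
        smul_mem' := by
          intro r a ha v hv
          simp only [Pi.smul_apply, smul_eq_mul, mul_assoc, ← Finset.mul_sum, ha v hv, mul_zero] }
    have hanti : ∀ m n, m ≤ n → K n ≤ K m := fun m n hmn c hc v hv => hc v (hv.trans hmn)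
    have hbot : ∀ n, K n ≠ ⊥ := by
      intro n
      obtain ⟨a, g, hag⟩ := factor i μ hM hμ k hk n
      let L : (Fin (R + 1) → ℝ) →ₗ[ℝ] (((Sec i k → Fin q) × (Sec i k → Fin q)) → ℝ) :=
        { toFun := fun c y => ∑ j, c j * a (u j) y
          map_add' := by
            intro b c; funext y
            simp only [Pi.add_apply, add_mul, Finset.sum_add_distrib]
          map_smul' := by
            intro r c; funext y
            simp only [Pi.smul_apply, smul_eq_mul, mul_assoc, ← Finset.mul_sum, RingHom.id_apply] }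
      have hker : LinearMap.ker L ≠ ⊥ := by
        apply LinearMap.ker_ne_bot_of_finrank_lt
        rw [Module.finrank_fintype_fun_eq_card, Module.finrank_fintype_fun_eq_card, Fintype.card_fin]
        exact Nat.lt_succ_self _
      obtain ⟨c, hc, hc0⟩ := Submodule.exists_mem_ne_zero_of_ne_bot hker
      intro hK
      apply hc0
      have : c ∈ K n := by
        intro v hv
        have h1 : ∀ y, ∑ j, c j * a (u j) y = 0 := fun y => congrFun (LinearMap.mem_ker.1 hc) y
        have h2 : ∑ j, c j * pw i μ (u j ++ v) = ∑ y, (∑ j, c j * a (u j) y) * g v y := by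
          simp_rw [hag _ v hv, Finset.mul_sum, Finset.sum_mul]
          rw [Finset.sum_comm]
          refine Finset.sum_congr rfl fun y _ => Finset.sum_congr rfl fun j _ => by ring
        rw [h2]
        exact Finset.sum_eq_zero fun y _ => by rw [h1 y, zero_mul]
      rw [hK] at this
      exact this
    obtain ⟨n, hn⟩ := IsArtinian.monotone_stabilizes
      (⟨fun n => OrderDual.toDual (K n), fun a b hab => hanti a b hab⟩ :
        ℕ →o (Submodule ℝ (Fin (R + 1) → ℝ))ᵒᵈ)
    obtain ⟨c, hc, hc0⟩ := Submodule.exists_mem_ne_zero_of_ne_bot (hbot n)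
    have hall : ∀ v : List (Fin q), ∑ j, c j * pw i μ (u j ++ v) = 0 := by
      intro v
      rcases le_total n v.length with h | h
      · have h1 : K n = K v.length := hn v.length h
        rw [h1] at hc
        exact hc v le_rfl
      · exact hc v h
    have h2 : ∑ j, c j • fut (pw i μ) (u j) = 0 := by
      funext v
      simp only [Finset.sum_apply, Pi.smul_apply, smul_eq_mul, Pi.zero_apply]
      exact hall v
    have h3 := Fintype.linearIndependent_iff.1 hLI c h2
    exact hc0 (funext h3)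
  obtain ⟨κ, a, ha, hspan, hLI⟩ := exists_linearIndependent' ℝ (fut (pw i μ))
  have hfin : Finite κ := by
    by_contra hinf
    rw [not_finite_iff_infinite] at hinf
    obtain ⟨b⟩ : Nonempty (Fin (R + 1) ↪ κ) := by
      exact ⟨(Fin.valEmbedding).trans (Infinite.natEmbedding κ)⟩
    exact key (fun j => a (b j)) (hLI.comp b b.injective)
  unfold space
  rw [← hspan]
  exact FiniteDimensional.span_of_finite ℝ (Set.finite_range _)

/-- A finitely dependent Markov random field on `ℤ^d` has equal values at neighbouring sites with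
positive probability. -/
theorem pos_of_markov (hM : MarkovField μ) (hμ : ShiftInvariant μ) (hfd : FinitelyDependent μ) :
    0 < μ {x | x 0 = x (Pi.single i 1)} := by
  rw [pos_iff_ne_zero]
  intro h0
  obtain ⟨k, hk⟩ := hfd
  exact no_finite_rank (pw i μ) (pw_nil i μ) (pw_left i μ hμ) (pw_right i μ) k
    (pw_dep i μ k hk hμ) (fun u v a => pw_col i μ hμ h0 u v a) (finite_rank i μ hM hμ k hk)

end Pool.Agent.N945.MRF
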